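import Pool.Agent.Y184.RB.Base
import Pool.Agent.Y625.SP.Max

/-!
# The regularised maximum on a complex manifold
-/

set_option autoImplicit false

open Set Topology Filter
open scoped ContDiff Manifold

namespace Pool.Agent.Y340.RB

open Pool.Agent.Y184.RB
open Pool.Agent.Y625.SP (mS mM mM_deriv mM_contDiff mM_neg mM_pos mM_sub mS_nonneg mS_le_one
  mS_contDiff max_line)

theorem mM_nonneg (r : ℝ) : 0 ≤ mM r := by
  rcases le_or_gt r (-1) with h | h
  · rw [mM_neg h]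
  · exact intervalIntegral.integral_nonneg h.le fun s _ => mS_nonneg s

theorem mM_le_add {r : ℝ} (h : -1 ≤ r) : mM r ≤ r + 1 := by
  have h1 : mM r ≤ ∫ _ in (-1 : ℝ)..r, (1 : ℝ) := by
    unfold mM
    exact intervalIntegral.integral_mono_on h (mS_contDiff.continuous.intervalIntegrable _ _)
      intervalIntegrable_const fun s _ => mS_le_one s
  rw [intervalIntegral.integral_const, smul_eq_mul, mul_one] at h1
  linarith

theorem mM_bounds (r : ℝ) : max 0 r ≤ mM r ∧ mM r ≤ max 0 r + 1 := by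
  constructor
  · refine max_le (mM_nonneg r) ?_
    have h1 := mM_sub r
    have h2 := mM_nonneg (-r)
    linarith
  · rcases le_or_gt r 0 with h | h
    · rw [max_eq_left h]
      rcases le_or_gt r (-1) with h1 | h1
      · rw [mM_neg h1]; norm_num
      · have := mM_le_add h1.le
        linarith
    · rw [max_eq_right h.le]
      have h1 := mM_sub r
      rcases le_or_gt (-r) (-1) with h2 | h2
      · rw [mM_neg h2] at h1; linarith
      · have := mM_le_add h2.le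
        linarith

section

variable {n : ℕ} {Y : Type} [TopologicalSpace Y] [ChartedSpace (En n) Y]

theorem disc_real {f : ℂ → Y} (hf : IsDisc n f) :
    ContMDiffAt 𝓘(ℝ, ℂ) 𝓘(ℝ, En n) ∞ f 0 := by
  have h := contMDiffAt_iff.1 hf
  rw [contMDiffAt_iff]
  refine ⟨h.1, ?_⟩
  exact (h.2.restrict_scalars ℝ).of_le le_top

theorem disc_comp {f : ℂ → Y} (hf : IsDisc n f) {u : Y → ℝ}
    (hu : ContMDiffAt 𝓘(ℝ, En n) 𝓘(ℝ, ℝ) ∞ u (f 0)) :
    ContDiffAt ℝ 2 (fun ζ : ℂ => u (f ζ)) 0 := by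
  have h1 : ContMDiffAt 𝓘(ℝ, ℂ) 𝓘(ℝ, ℝ) ∞ (fun ζ : ℂ => u (f ζ)) 0 :=
    ContMDiffAt.comp (g := u) (f := f) (0 : ℂ) hu (disc_real hf)
  exact (contMDiffAt_iff_contDiffAt.1 h1).of_le (WithTop.coe_le_coe.2 (le_top : (2 : ℕ∞) ≤ ⊤))

end

/-- the second derivative of the regularised maximum along a line -/
theorem line_max {F H : ℂ → ℝ} (hF : ContDiffAt ℝ 2 F 0) (hH : ContDiffAt ℝ 2 H 0) {s : ℝ}
    (hs : 0 < s) (e : ℂ) :
    (1 - mS ((F 0 - H 0) / s)) * iteratedFDeriv ℝ 2 H 0 ![e, e] +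
      mS ((F 0 - H 0) / s) * iteratedFDeriv ℝ 2 F 0 ![e, e] ≤
    iteratedFDeriv ℝ 2 (fun ζ => H ζ + s * mM ((F ζ - H ζ) / s)) 0 ![e, e] := by
  have hF' : ContDiffAt ℝ 2 (s⁻¹ • F) 0 := hF.const_smul s⁻¹
  have hH' : ContDiffAt ℝ 2 (s⁻¹ • H) 0 := hH.const_smul s⁻¹
  have k := max_line hF' hH' e
  have hG : ContDiffAt ℝ 2 (fun ζ => (s⁻¹ • H) ζ + mM ((s⁻¹ • F) ζ - (s⁻¹ • H) ζ)) 0 := by
    have h1 : ContDiffAt ℝ 2 mM ((s⁻¹ • F) 0 - (s⁻¹ • H) 0) := mM_contDiff.contDiffAt.of_le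
      (WithTop.coe_le_coe.2 (le_top : (2 : ℕ∞) ≤ ⊤))
    exact hH'.add (ContDiffAt.comp (g := mM) (f := fun ζ => (s⁻¹ • F) ζ - (s⁻¹ • H) ζ) (0 : ℂ) h1
      (hF'.sub hH'))
  have e1 : (fun ζ => H ζ + s * mM ((F ζ - H ζ) / s)) =
      s • (fun ζ => (s⁻¹ • H) ζ + mM ((s⁻¹ • F) ζ - (s⁻¹ • H) ζ)) := by
    funext ζ
    simp only [Pi.smul_apply, smul_eq_mul]
    have h2 : s⁻¹ * F ζ - s⁻¹ * H ζ = (F ζ - H ζ) / s := by field_simp
    rw [h2]
    field_simp
  have e2 : (s⁻¹ • F) 0 - (s⁻¹ • H) 0 = (F 0 - H 0) / s := by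
    simp only [Pi.smul_apply, smul_eq_mul]
    field_simp
  rw [e2, iteratedFDeriv_const_smul_apply hF, iteratedFDeriv_const_smul_apply hH] at k
  rw [e1, iteratedFDeriv_const_smul_apply hG]
  simp only [ContinuousMultilinearMap.smul_apply, smul_eq_mul] at k ⊢
  have k2 := mul_le_mul_of_nonneg_left k hs.le
  have e3 : s * ((1 - mS ((F 0 - H 0) / s)) * (s⁻¹ * iteratedFDeriv ℝ 2 H 0 ![e, e]) +
      mS ((F 0 - H 0) / s) * (s⁻¹ * iteratedFDeriv ℝ 2 F 0 ![e, e])) =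
      (1 - mS ((F 0 - H 0) / s)) * iteratedFDeriv ℝ 2 H 0 ![e, e] +
      mS ((F 0 - H 0) / s) * iteratedFDeriv ℝ 2 F 0 ![e, e] := by
    field_simp
  rw [e3] at k2
  exact k2

/-- the Laplacian of the regularised maximum -/
theorem lap_max {F H : ℂ → ℝ} (hF : ContDiffAt ℝ 2 F 0) (hH : ContDiffAt ℝ 2 H 0) {s : ℝ}
    (hs : 0 < s) :
    (1 - mS ((F 0 - H 0) / s)) * Laplacian.laplacian H 0 +
      mS ((F 0 - H 0) / s) * Laplacian.laplacian F 0 ≤
    Laplacian.laplacian (fun ζ => H ζ + s * mM ((F ζ - H ζ) / s)) 0 := by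
  rw [InnerProductSpace.laplacian_eq_iteratedFDeriv_complexPlane,
    InnerProductSpace.laplacian_eq_iteratedFDeriv_complexPlane,
    InnerProductSpace.laplacian_eq_iteratedFDeriv_complexPlane]
  have k1 := line_max hF hH hs 1
  have k2 := line_max hF hH hs Complex.I
  simp only
  linarith

/-- the regularised maximum -/
theorem stMx : StMx := by
  refine ⟨mM, mM_contDiff, fun r hr => mM_neg hr, fun r hr => mM_pos hr, mM_bounds, ?_⟩
  intro n Y _ _ _ Ω θ c s u v p hs hu hv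
  unfold SM at hu hv ⊢
  filter_upwards [hu, hv] with q hu hv
  obtain ⟨hu1, hu2⟩ := hu
  obtain ⟨hv1, hv2⟩ := hv
  constructor
  · have h1 : ContMDiffAt 𝓘(ℝ, En n) 𝓘(ℝ, ℝ) ∞ (fun q => (u q - v q) / s) q :=
      (hu1.sub hv1).div_const s
    have h2 : ContMDiffAt 𝓘(ℝ, En n) 𝓘(ℝ, ℝ) ∞ (fun q => mM ((u q - v q) / s)) q :=
      ContMDiffAt.comp (g := mM) (f := fun q => (u q - v q) / s) q
        (mM_contDiff.contMDiff.contMDiffAt) h1
    exact hv1.add (contMDiffAt_const.mul h2)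
  · intro f hf hfq
    have k1 := hu2 f hf hfq
    have k2 := hv2 f hf hfq
    rw [← hfq] at hu1 hv1
    have k3 := lap_max (disc_comp hf hu1) (disc_comp hf hv1) hs
    have s1 := mS_nonneg ((u (f 0) - v (f 0)) / s)
    have s2 := mS_le_one ((u (f 0) - v (f 0)) / s)
    have m1 := mul_le_mul_of_nonneg_left k1 s1
    have m2 := mul_le_mul_of_nonneg_left k2 (sub_nonneg.mpr s2)
    linarith

end Pool.Agent.Y340.RB
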